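import Pool.Agent.U529.UI.Sum

set_option autoImplicit false

/-!
# Universal interpolating sequences: a function with large derivatives at the nodes

Let `V = (a n, p n)` be universal interpolating. By Baire's theorem bounded data can be interpolated
by functions `g` with `|g| ≤ N exp (N ρ)`, with one constant `N`. Let `g n` interpolate the data whose
only nonzero entry is `1` at `(n, p n - 1)`, and `φ n z = (z - a n) g n z`. Then `φ n` vanishes on `V`
and its Taylor coefficient of order `p n` at `a n` is `1`. The nodes are separated, so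
`∑ exp (-c ρ (a n)) < ∞` for some `c`. A random combination of the `φ n`, with coefficients of size
`exp (-(c + 1) ρ (a n))` from finite arithmetic progressions, has by the union bound large Taylor
coefficients of order `p n` at all `a n`, `n < M`. Let `M → ∞` (Montel).
-/

open Complex Set Filter Metric Topology

namespace Pool.Agent.U529.UI

/-- derivatives of `(z - b) g z` -/
theorem iteratedDeriv_lin_mul (g : ℂ → ℂ) (hg : Differentiable ℂ g) (b : ℂ) (k : ℕ) :
    iteratedDeriv (k + 1) (fun z => (z - b) * g z) =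
      fun x => (x - b) * iteratedDeriv (k + 1) g x + ((k : ℂ) + 1) * iteratedDeriv k g x := by
  have hdk : ∀ j : ℕ, Differentiable ℂ (iteratedDeriv j g) := by
    intro j
    have h2 : ContDiff ℂ (j + 1 : ℕ) g := hg.contDiff
    exact h2.differentiable_iteratedDeriv j (by exact_mod_cast Nat.lt_succ_self j)
  induction k with
  | zero =>
    rw [iteratedDeriv_succ, iteratedDeriv_zero]
    funext x
    have h1 : HasDerivAt (fun z => (z - b) * g z) (1 * g x + (x - b) * deriv g x) x :=
      ((hasDerivAt_id x).sub_const b).mul (hg x).hasDerivAt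
    rw [h1.deriv, iteratedDeriv_one, iteratedDeriv_zero]
    push_cast
    ring
  | succ k ih =>
    rw [iteratedDeriv_succ, ih]
    funext x
    have h1 : HasDerivAt (fun x => (x - b) * iteratedDeriv (k + 1) g x + ((k : ℂ) + 1) * iteratedDeriv k g x)
        ((1 * iteratedDeriv (k + 1) g x + (x - b) * deriv (iteratedDeriv (k + 1) g) x) +
          ((k : ℂ) + 1) * deriv (iteratedDeriv k g) x) x :=
      (((hasDerivAt_id x).sub_const b).mul (hdk (k + 1) x).hasDerivAt).add
        ((hdk k x).hasDerivAt.const_mul _)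
    rw [h1.deriv, ← iteratedDeriv_succ, ← iteratedDeriv_succ]
    push_cast
    ring

theorem iteratedDeriv_lin_mul' (g : ℂ → ℂ) (hg : Differentiable ℂ g) (b : ℂ) (k : ℕ) (x : ℂ) :
    iteratedDeriv (k + 1) (fun z => (z - b) * g z) x =
      (x - b) * iteratedDeriv (k + 1) g x + ((k : ℂ) + 1) * iteratedDeriv k g x := by
  rw [iteratedDeriv_lin_mul g hg b k]

theorem main {a : ℕ → ℂ} {p : ℕ → ℕ} (hp : ∀ n, 1 ≤ p n) (hu : Universal a p) :
    ∃ f : ℂ → ℂ, InE f ∧ (∃ z, f z ≠ 0) ∧
      (∀ n, ∀ k < p n, iteratedDeriv k f (a n) = 0) ∧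
      ∃ ε > (0:ℝ), ∃ c > (0:ℝ), ∀ n,
        ε * Real.exp (-(c * rho (a n))) ≤
          ‖iteratedDeriv (p n) f (a n)‖ / ((p n).factorial : ℝ) := by
  classical
  obtain ⟨N, hN, hU⟩ := uniform hu
  have hN0 : 0 < N := by linarith
  have hg' : ∀ n : ℕ, ∃ g, Cls N g ∧
      Interp a p (fun i κ => if i = n ∧ κ = p n - 1 then 1 else 0) g := fun n =>
    hU (fun i κ => if i = n ∧ κ = p n - 1 then 1 else 0) (fun i κ => by split_ifs <;> simp)
  choose g hg hgi using hg'
  have hsep := separated hN hp hU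
  set c0 : ℝ := 1 / (2 * N * Real.exp (3 * N)) with hc0
  have hc00 : 0 < c0 := by positivity
  have hc01 : c0 ≤ 1 := by
    rw [hc0, div_le_one (by positivity)]
    have : 1 ≤ Real.exp (3 * N) := Real.one_le_exp (by linarith)
    nlinarith
  set W : ℕ → ℝ := fun n => Real.exp (-((2 * N + 2) * rho (a n))) with hW
  have hWs : Summable W := summable_exp hc00 hc01 hN0.le hsep
  have hW0 : ∀ n, 0 < W n := fun n => Real.exp_pos _
  have hW1 : ∀ n, W n ≤ 1 := fun n =>
    Real.exp_le_one_iff.2 (by have := rho_nonneg (a n); nlinarith)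
  set S : ℝ := ∑' n, W n with hS
  have hS0 : 0 < S := lt_of_lt_of_le (hW0 0) (hWs.le_tsum 0 (fun n _ => (hW0 n).le))
  set θ : ℝ := 1 / (2 * (S + 1)) with hθ
  have hθ0 : 0 < θ := by positivity
  have hθ1 : θ ≤ 1 := by
    rw [hθ, div_le_one (by positivity)]; linarith
  have hθS : θ * S < 1 := by
    rw [hθ, div_mul_eq_mul_div, div_lt_one (by positivity)]; linarith
  set w : ℕ → ℝ := fun n => Real.exp (-((2 * N + 3) * rho (a n))) with hw
  have hw0 : ∀ n, 0 < w n := fun n => Real.exp_pos _
  have hwW : ∀ n, w n = W n * Real.exp (-(rho (a n))) := by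
    intro n
    show Real.exp (-((2 * N + 3) * rho (a n))) = Real.exp (-((2 * N + 2) * rho (a n))) * _
    rw [← Real.exp_add]; congr 1; ring
  set K : ℕ → ℕ := fun n => ⌈1 / (θ * W n)⌉₊ with hK
  have hKl : ∀ n, 1 / (θ * W n) ≤ K n := fun n => Nat.le_ceil _
  have hKu : ∀ n, (K n : ℝ) ≤ 2 / (θ * W n) := by
    intro n
    have h1 : 0 < θ * W n := by have := hW0 n; positivity
    have h2 : (K n : ℝ) < 1 / (θ * W n) + 1 := Nat.ceil_lt_add_one (by positivity)
    have h3 : 1 ≤ 1 / (θ * W n) := by
      rw [le_div_iff₀ h1]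
      have := hW1 n
      have := hW0 n
      nlinarith
    have h4 : 2 / (θ * W n) = 1 / (θ * W n) + 1 / (θ * W n) := by ring
    linarith
  have hK0 : ∀ n, (0:ℝ) < K n := by
    intro n
    have h1 : 0 < θ * W n := by have := hW0 n; positivity
    exact lt_of_lt_of_le (by positivity) (hKl n)
  set δ : ℕ → ℝ := fun n => w n / (2 * K n) with hδ
  have hδl : ∀ n, θ / 4 * Real.exp (-((4 * N + 5) * rho (a n))) ≤ δ n := by
    intro n
    have h1 : 0 < θ * W n := by have := hW0 n; positivity
    have h2 := hKu n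
    have h3 := hK0 n
    rw [le_div_iff₀ h1] at h2
    show _ ≤ w n / (2 * K n)
    rw [le_div_iff₀ (by positivity)]
    have e : Real.exp (-((4 * N + 5) * rho (a n))) = w n * W n := by
      show _ = Real.exp (-((2 * N + 3) * rho (a n))) * Real.exp (-((2 * N + 2) * rho (a n)))
      rw [← Real.exp_add]; congr 1; ring
    rw [e]
    have h5 : θ / 4 * (w n * W n) * (2 * K n) = w n * (K n * (θ * W n)) / 2 := by ring
    rw [h5]
    have := hw0 n
    nlinarith
  have hδ0 : ∀ n, 0 < δ n := fun n => by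
    have := hw0 n; have := hK0 n
    show 0 < w n / (2 * K n)
    positivity
  set φ : ℕ → ℂ → ℂ := fun n z => (z - a n) * g n z with hφ
  have hφd : ∀ n, Differentiable ℂ (φ n) := fun n =>
    (differentiable_id.sub_const _).mul (hg n).1
  have hgz : ∀ n m k, k < p m → ¬ (m = n ∧ k = p n - 1) → iteratedDeriv k (g n) (a m) = 0 := by
    intro n m k hk hne
    have h1 : iteratedDeriv k (g n) (a m) / (k.factorial : ℂ) =
      if m = n ∧ k = p n - 1 then 1 else 0 := hgi n m k hk
    rw [if_neg hne, div_eq_zero_iff] at h1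
    rcases h1 with h1 | h1
    · exact h1
    · exact absurd h1 (by exact_mod_cast Nat.factorial_ne_zero k)
  have hφ0 : ∀ n m k, k < p m → iteratedDeriv k (φ n) (a m) = 0 := by
    intro n m k hk
    cases k with
    | zero =>
      rw [iteratedDeriv_zero]
      show (a m - a n) * g n (a m) = 0
      by_cases hmn : m = n
      · rw [hmn]; simp
      · have h1 := hgz n m 0 hk (fun h => hmn h.1)
        rw [iteratedDeriv_zero] at h1
        rw [h1, mul_zero]
    | succ k =>
      rw [iteratedDeriv_lin_mul' (g n) (hg n).1]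
      by_cases hmn : m = n
      · subst hmn
        rw [hgz m m k (by omega) (by omega)]
        simp
      · rw [hgz n m (k + 1) hk (fun h => hmn h.1), hgz n m k (by omega) (fun h => hmn h.1)]
        simp
  have hφ1 : ∀ n, iteratedDeriv (p n) (φ n) (a n) / ((p n).factorial : ℂ) = 1 := by
    intro n
    obtain ⟨k, hk⟩ : ∃ k, p n = k + 1 := ⟨p n - 1, by have := hp n; omega⟩
    have h1 : iteratedDeriv k (g n) (a n) / (k.factorial : ℂ) =
      if n = n ∧ k = p n - 1 then 1 else 0 := hgi n n k (by omega)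
    rw [if_pos ⟨rfl, by omega⟩] at h1
    have hf : ((k.factorial : ℕ) : ℂ) ≠ 0 := by exact_mod_cast Nat.factorial_ne_zero k
    have hk1 : ((k : ℂ) + 1) ≠ 0 := by exact_mod_cast Nat.succ_ne_zero k
    rw [div_eq_one_iff_eq hf] at h1
    rw [hk, iteratedDeriv_lin_mul' (g n) (hg n).1, Nat.factorial_succ, h1]
    push_cast
    rw [sub_self, zero_mul, zero_add]
    exact div_self (mul_ne_zero hk1 hf)
  -- the choice for finitely many nodes
  have hchoice : ∀ M : ℕ, ∃ i : ∀ n : Fin M, Fin (K n + 1), ∀ m : Fin M,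
      ¬ ‖∑ n : Fin M, ((w n * ((i n : ℕ) : ℝ) / K n : ℝ) : ℂ) *
        (iteratedDeriv (p m) (φ n) (a m) / ((p m).factorial : ℂ))‖ < δ m := by
    intro M
    apply exists_choice M (fun n => K n) (fun m i =>
      ‖∑ n : Fin M, ((w n * ((i n : ℕ) : ℝ) / K n : ℝ) : ℂ) *
        (iteratedDeriv (p m) (φ n) (a m) / ((p m).factorial : ℂ))‖ < δ m)
    · rintro m i u v huv ⟨h1, h2⟩
      set A : Fin M → ℂ := fun n => ((w n * ((Function.update i m u n : ℕ) : ℝ) / K n : ℝ) : ℂ) *
        (iteratedDeriv (p m) (φ n) (a m) / ((p m).factorial : ℂ)) with hA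
      set B : Fin M → ℂ := fun n => ((w n * ((Function.update i m v n : ℕ) : ℝ) / K n : ℝ) : ℂ) *
        (iteratedDeriv (p m) (φ n) (a m) / ((p m).factorial : ℂ)) with hB
      have h3 : ∑ n, A n - ∑ n, B n = ((w m * ((u : ℕ) : ℝ) / K m - w m * ((v : ℕ) : ℝ) / K m : ℝ) : ℂ) := by
        rw [← Finset.sum_sub_distrib, Finset.sum_eq_single m]
        · simp only [hA, hB, Function.update_self]
          rw [hφ1]
          push_cast
          ring
        · intro n _ hn
          simp only [hA, hB, Function.update_of_ne hn]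
          ring
        · intro h
          exact absurd (Finset.mem_univ m) h
      have h4 := norm_sub_le (∑ n, A n) (∑ n, B n)
      rw [h3, Complex.norm_real, Real.norm_eq_abs] at h4
      have h5 : w m / K m ≤ |w m * ((u : ℕ) : ℝ) / K m - w m * ((v : ℕ) : ℝ) / K m| := by
        have e : w m * ((u : ℕ) : ℝ) / K m - w m * ((v : ℕ) : ℝ) / K m =
            w m / K m * (((u : ℕ) : ℝ) - ((v : ℕ) : ℝ)) := by ring
        have hwk : 0 < w m / K m := div_pos (hw0 m) (hK0 m)
        rw [e, abs_mul, abs_of_pos hwk]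
        have h6 : (1:ℝ) ≤ |((u : ℕ) : ℝ) - ((v : ℕ) : ℝ)| := by
          have h7 : ((u : ℕ) : ℤ) - ((v : ℕ) : ℤ) ≠ 0 := by
            intro h
            apply huv
            apply Fin.ext
            omega
          have h8 := Int.one_le_abs h7
          exact_mod_cast h8
        nlinarith
      have h6 : δ m = w m / K m / 2 := by
        show w m / (2 * K m) = _
        field_simp
      have h7 : ‖∑ n, A n‖ < δ m := h1
      have h8 : ‖∑ n, B n‖ < δ m := h2
      linarith
    · have h1 : ∀ m : Fin M, 1 / ((K m : ℝ) + 1) ≤ θ * W m := by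
        intro m
        have h2 : 0 < θ * W m := by have := hW0 m; positivity
        have h3 := hKl m
        rw [div_le_iff₀ h2] at h3
        have h4 := hK0 m
        rw [div_le_iff₀ (by positivity)]
        nlinarith
      calc ∑ m : Fin M, 1 / ((K m : ℝ) + 1) ≤ ∑ m : Fin M, θ * W m :=
            Finset.sum_le_sum fun m _ => h1 m
        _ = θ * ∑ n ∈ Finset.range M, W n := by
            rw [← Finset.mul_sum, Finset.sum_range]
        _ ≤ θ * S := by
            gcongr
            exact hWs.sum_le_tsum _ (fun n _ => (hW0 n).le)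
        _ < 1 := hθS
  choose i hi using hchoice
  set f : ℕ → ℂ → ℂ := fun M z => ∑ n : Fin M, ((w n * ((i M n : ℕ) : ℝ) / K n : ℝ) : ℂ) * φ n z with hf
  have hfd : ∀ M, Differentiable ℂ (f M) := by
    intro M
    apply Differentiable.fun_sum
    intro n _
    exact (hφd n).const_mul _
  have hfj : ∀ M j z, iteratedDeriv j (f M) z =
      ∑ n : Fin M, ((w n * ((i M n : ℕ) : ℝ) / K n : ℝ) : ℂ) * iteratedDeriv j (φ n) z := by
    intro M j z
    show iteratedDeriv j (fun z => ∑ n : Fin M, ((w n * ((i M n : ℕ) : ℝ) / K n : ℝ) : ℂ) * φ n z) z = _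
    rw [iteratedDeriv_fun_sum]
    · refine Finset.sum_congr rfl fun n _ => ?_
      exact iteratedDeriv_const_mul _ (hφd n).contDiff.contDiffAt
    · intro n _
      exact ((hφd n).const_mul _).contDiff.contDiffAt
  have hcn : ∀ M (n : Fin M), ‖((w n * ((i M n : ℕ) : ℝ) / K n : ℝ) : ℂ)‖ ≤ w n := by
    intro M n
    have h1 := hw0 n
    have h2 := hK0 n
    rw [Complex.norm_real, Real.norm_eq_abs, abs_of_nonneg (by positivity), div_le_iff₀ h2]
    have h3 : ((i M n : ℕ) : ℝ) ≤ K n := by
      have := (i M n).2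
      exact_mod_cast Nat.lt_succ_iff.1 this
    gcongr
  have hfb : ∀ M z, ‖f M z‖ ≤ 2 * S * N * Real.exp ((N + 1) * rho z) := by
    intro M z
    have h1 : ∀ n : Fin M, ‖((w n * ((i M n : ℕ) : ℝ) / K n : ℝ) : ℂ) * φ n z‖ ≤
        W n * (2 * N * Real.exp ((N + 1) * rho z)) := by
      intro n
      rw [norm_mul]
      have h2 := hcn M n
      have h3 : ‖φ n z‖ ≤ (‖z‖ + ‖a n‖) * (N * Real.exp (N * rho z)) := by
        show ‖(z - a n) * g n z‖ ≤ _
        rw [norm_mul]
        have h4 := norm_sub_le z (a n)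
        have h5 := (hg n).2 z
        gcongr
      have h6 : w n * (‖z‖ + ‖a n‖) ≤ W n * (2 * Real.exp (rho z)) := by
        rw [hwW]
        have h7 := norm_le_exp_rho z
        have h8 := norm_le_exp_rho (a n)
        have h9 : Real.exp (-(rho (a n))) * ‖a n‖ ≤ 1 := by
          calc Real.exp (-(rho (a n))) * ‖a n‖ ≤ Real.exp (-(rho (a n))) * Real.exp (rho (a n)) := by gcongr
            _ = 1 := by rw [← Real.exp_add]; simp
        have h10 : Real.exp (-(rho (a n))) ≤ 1 := Real.exp_le_one_iff.2 (by linarith [rho_nonneg (a n)])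
        have h11 : 1 ≤ Real.exp (rho z) := Real.one_le_exp (rho_nonneg z)
        have h12 := hW0 n
        have h13 : Real.exp (-(rho (a n))) * ‖z‖ ≤ Real.exp (rho z) := by
          have := Real.exp_pos (-(rho (a n)))
          nlinarith [norm_nonneg z]
        calc W n * Real.exp (-(rho (a n))) * (‖z‖ + ‖a n‖) =
              W n * (Real.exp (-(rho (a n))) * ‖z‖ + Real.exp (-(rho (a n))) * ‖a n‖) := by ring
          _ ≤ W n * (Real.exp (rho z) + 1) := by gcongr
          _ ≤ W n * (2 * Real.exp (rho z)) := by gcongr; linarith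
      calc ‖((w n * ((i M n : ℕ) : ℝ) / K n : ℝ) : ℂ)‖ * ‖φ n z‖
          ≤ w n * ((‖z‖ + ‖a n‖) * (N * Real.exp (N * rho z))) := by
            have := hw0 n
            gcongr
        _ = (w n * (‖z‖ + ‖a n‖)) * (N * Real.exp (N * rho z)) := by ring
        _ ≤ (W n * (2 * Real.exp (rho z))) * (N * Real.exp (N * rho z)) := by gcongr
        _ = W n * (2 * N * (Real.exp (rho z) * Real.exp (N * rho z))) := by ring
        _ = W n * (2 * N * Real.exp ((N + 1) * rho z)) := by
            rw [← Real.exp_add]; ring_nf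
    calc ‖f M z‖ ≤ ∑ n : Fin M, ‖((w n * ((i M n : ℕ) : ℝ) / K n : ℝ) : ℂ) * φ n z‖ := norm_sum_le _ _
      _ ≤ ∑ n : Fin M, W n * (2 * N * Real.exp ((N + 1) * rho z)) := Finset.sum_le_sum fun n _ => h1 n
      _ = (∑ n ∈ Finset.range M, W n) * (2 * N * Real.exp ((N + 1) * rho z)) := by
          rw [← Finset.sum_mul, Finset.sum_range]
      _ ≤ S * (2 * N * Real.exp ((N + 1) * rho z)) := by
          gcongr
          exact hWs.sum_le_tsum _ (fun n _ => (hW0 n).le)
      _ = _ := by ring
  have hcont : Continuous fun z : ℂ => 2 * S * N * Real.exp ((N + 1) * rho z) := by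
    have := rho_continuous
    fun_prop
  obtain ⟨F, hFd, hFb, hF⟩ := montel hcont f hfd hfb (hyperfilter ℕ)
  have hlow : ∀ m, δ m ≤ ‖iteratedDeriv (p m) F (a m)‖ / ((p m).factorial : ℝ) := by
    intro m
    have h1 : Tendsto (fun M => ‖iteratedDeriv (p m) (f M) (a m)‖ / ((p m).factorial : ℝ))
        (hyperfilter ℕ : Filter ℕ) (𝓝 (‖iteratedDeriv (p m) F (a m)‖ / ((p m).factorial : ℝ))) :=
      (hF (p m) (a m)).norm.div_const _
    have h2 : ∀ᶠ M : ℕ in (hyperfilter ℕ : Filter ℕ), m < M :=
      (eventually_gt_atTop m).filter_mono Nat.hyperfilter_le_atTop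
    refine ge_of_tendsto h1 (h2.mono fun M hM => ?_)
    have h3 := hi M ⟨m, hM⟩
    rw [not_lt] at h3
    refine h3.trans (le_of_eq ?_)
    rw [hfj]
    have e : ∑ n : Fin M, ((w n * ((i M n : ℕ) : ℝ) / K n : ℝ) : ℂ) *
        (iteratedDeriv (p m) (φ n) (a m) / ((p m).factorial : ℂ)) =
        (∑ n : Fin M, ((w n * ((i M n : ℕ) : ℝ) / K n : ℝ) : ℂ) * iteratedDeriv (p m) (φ n) (a m)) /
          ((p m).factorial : ℂ) := by
      rw [Finset.sum_div]
      refine Finset.sum_congr rfl fun n _ => ?_
      ring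
    show ‖∑ n : Fin M, ((w n * ((i M n : ℕ) : ℝ) / K n : ℝ) : ℂ) *
        (iteratedDeriv (p m) (φ n) (a m) / ((p m).factorial : ℂ))‖ = _
    rw [e, norm_div]
    congr 1
    simp
  refine ⟨F, ⟨hFd, 2 * S * N, by positivity, N + 1, by positivity, hFb⟩, ?_, ?_, θ / 4, by positivity,
    4 * N + 5, by positivity, fun n => (hδl n).trans (hlow n)⟩
  · by_contra hcon
    push Not at hcon
    have hF0 : F = fun _ => 0 := funext hcon
    have h1 := hlow 0
    have h2 := hδ0 0
    rw [hF0] at h1
    have h3 : iteratedDeriv (p 0) (fun _ : ℂ => (0:ℂ)) (a 0) = 0 := by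
      simp
    rw [h3] at h1
    simp at h1
    linarith
  · intro n k hk
    have h1 := hF k (a n)
    have h2 : (fun M => iteratedDeriv k (f M) (a n)) = fun _ => 0 := by
      funext M
      rw [hfj]
      refine Finset.sum_eq_zero fun j _ => ?_
      rw [hφ0 j n k hk, mul_zero]
    rw [h2] at h1
    exact tendsto_nhds_unique h1 tendsto_const_nhds

end Pool.Agent.U529.UI
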