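import Mathlib

set_option autoImplicit false

/-!
# Locally bounded sequences of entire functions: limits along an ultrafilter
-/

open Complex Set Filter Metric Topology

namespace Pool.Agent.U529.UI

/-- uniformly bounded holomorphic functions are locally Lipschitz, uniformly -/
theorem lip_of_bdd {F : ℂ → ℂ} {x : ℂ} {R M : ℝ} (hd : DifferentiableOn ℂ F (ball x R))
    (hb : ∀ z ∈ ball x R, ‖F z‖ ≤ M) : ∀ z ∈ ball x R, dist (F z) (F x) ≤ (2 * M) / R * dist z x := by
  intro z hz
  have hR : 0 < R := lt_of_le_of_lt dist_nonneg hz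
  apply Complex.dist_le_div_mul_dist_of_mapsTo_ball hd _ hz
  intro w hw
  rw [mem_closedBall, dist_eq_norm]
  have h1 := hb w hw
  have h2 := hb x (mem_ball_self hR)
  have h3 := norm_sub_le (F w) (F x)
  linarith

/-- locally uniformly bounded entire functions converging pointwise converge locally uniformly -/
theorem tlu_pt {ι : Type*} {l : Filter ι} [l.NeBot]
    {F : ι → ℂ → ℂ} {f : ℂ → ℂ} {N : ℂ → ℝ} (hN : Continuous N)
    (hd : ∀ i, Differentiable ℂ (F i)) (hb : ∀ i z, ‖F i z‖ ≤ N z)
    (hp : ∀ z, Tendsto (fun i => F i z) l (𝓝 (f z))) :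
    TendstoLocallyUniformlyOn F f l univ := by
  obtain ⟨i0⟩ : Nonempty ι := l.nonempty_of_neBot
  rw [Metric.tendstoLocallyUniformlyOn_iff]
  intro ε hε x _
  obtain ⟨M, hM⟩ := (isCompact_closedBall x 1).bddAbove_image hN.continuousOn
  have hMb : ∀ i, ∀ z ∈ ball x 1, ‖F i z‖ ≤ M := by
    intro i z hz
    exact (hb i z).trans (hM ⟨z, ball_subset_closedBall hz, rfl⟩)
  have hM0 : 0 ≤ M := le_trans (norm_nonneg _) (hMb i0 x (mem_ball_self one_pos))
  set L : ℝ := (2 * M + 1) with hL
  have hLp : 0 < L := by positivity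
  have key : ∀ i, ∀ z ∈ ball x 1, dist (F i z) (F i x) ≤ L * dist z x := by
    intro i z hz
    refine (lip_of_bdd (hd i).differentiableOn (fun w hw => hMb i w hw) z hz).trans ?_
    rw [hL, div_one]
    gcongr
    linarith
  have keyf : ∀ z ∈ ball x 1, dist (f z) (f x) ≤ L * dist z x := by
    intro z hz
    have h1 : Tendsto (fun i => dist (F i z) (F i x)) l (𝓝 (dist (f z) (f x))) :=
      (hp z).dist (hp x)
    exact le_of_tendsto h1 (Eventually.of_forall fun i => key i z hz)
  refine ⟨ball x (min 1 (ε / (4 * L))), mem_nhdsWithin_of_mem_nhds (ball_mem_nhds _ (by positivity)), ?_⟩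
  have hx' : ∀ᶠ i in l, dist (F i x) (f x) < ε / 4 := (Metric.tendsto_nhds.1 (hp x)) _ (by positivity)
  filter_upwards [hx'] with i hi y hy
  have hy1 : y ∈ ball x 1 := ball_subset_ball (min_le_left _ _) hy
  have hy2 : dist y x < ε / (4 * L) := lt_of_lt_of_le hy (min_le_right _ _)
  have hy3 : L * dist y x < ε / 4 := by
    calc L * dist y x < L * (ε / (4 * L)) := by gcongr
      _ = ε / 4 := by field_simp
  have h1 := key i y hy1
  have h2 := keyf y hy1
  calc dist (f y) (F i y) ≤ dist (f y) (f x) + dist (f x) (F i x) + dist (F i x) (F i y) :=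
        dist_triangle4 _ _ _ _
    _ < ε := by
        rw [dist_comm (f x), dist_comm (F i x) (F i y)]
        linarith

/-- Montel: a sequence of entire functions bounded by a continuous function has a limit along every
ultrafilter, together with all its derivatives. -/
theorem montel {N : ℂ → ℝ} (hN : Continuous N) (g : ℕ → ℂ → ℂ) (hd : ∀ k, Differentiable ℂ (g k))
    (hb : ∀ k z, ‖g k z‖ ≤ N z) (l : Ultrafilter ℕ) :
    ∃ G : ℂ → ℂ, Differentiable ℂ G ∧ (∀ z, ‖G z‖ ≤ N z) ∧
      ∀ (j : ℕ) (z : ℂ), Tendsto (fun k => iteratedDeriv j (g k) z) (l : Filter ℕ)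
        (𝓝 (iteratedDeriv j G z)) := by
  have hpt : ∀ z : ℂ, ∃ y : ℂ, Tendsto (fun i => g i z) l (𝓝 y) := by
    intro z
    have hc : IsCompact (closedBall (0 : ℂ) (N z)) := isCompact_closedBall _ _
    obtain ⟨y, -, hy⟩ := hc.ultrafilter_le_nhds (l.map (fun i => g i z)) (by
      rw [le_principal_iff]
      change (fun i => g i z) ⁻¹' _ ∈ (l : Filter ℕ)
      exact univ_mem' (fun i => mem_closedBall_zero_iff.2 (hb i z)))
    exact ⟨y, hy⟩
  choose G hG using hpt
  have htlu : TendstoLocallyUniformlyOn g G l univ := tlu_pt hN hd hb hG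
  have hGd : DifferentiableOn ℂ G univ :=
    htlu.differentiableOn (Eventually.of_forall fun i => (hd i).differentiableOn) isOpen_univ
  have hit : ∀ j : ℕ, TendstoLocallyUniformlyOn (fun k => iteratedDeriv j (g k))
      (iteratedDeriv j G) l univ := by
    intro j
    induction j with
    | zero => simpa [iteratedDeriv_zero] using htlu
    | succ j ih =>
      have h1 := ih.deriv (Eventually.of_forall fun i => by
        have h2 : ContDiff ℂ (j + 1 : ℕ) (g i) := (hd i).contDiff
        exact (h2.differentiable_iteratedDeriv j (by exact_mod_cast Nat.lt_succ_self j)).differentiableOn)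
        isOpen_univ
      have e1 : (fun k => iteratedDeriv (j + 1) (g k)) =
          deriv ∘ fun k => iteratedDeriv j (g k) := by
        funext k
        simp only [Function.comp_apply, iteratedDeriv_succ]
      rw [e1, iteratedDeriv_succ]
      exact h1
  refine ⟨G, differentiableOn_univ.1 hGd, fun z => ?_, fun j z => ?_⟩
  · exact le_of_tendsto (hG z).norm (Eventually.of_forall fun i => hb i z)
  · exact (hit j).tendsto_at (mem_univ z)

end Pool.Agent.U529.UI
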