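import Pool.Agent.U529.UI.Unif

set_option autoImplicit false

/-!
# Separation of universal interpolating sequences and summability
-/

open Complex Set Filter Metric Topology MeasureTheory
open scoped ENNReal

namespace Pool.Agent.U529.UI

theorem separated {a : ℕ → ℂ} {p : ℕ → ℕ} {N : ℝ} (hN : 1 ≤ N) (hp : ∀ n, 1 ≤ p n)
    (hu : ∀ lam : ℕ → ℕ → ℂ, (∀ n κ, ‖lam n κ‖ ≤ 1) → ∃ g, Cls N g ∧ Interp a p lam g) :
    ∀ m n, m ≠ n → 1 / (2 * N * Real.exp (3 * N)) * Real.exp (-(N * rho (a n))) ≤
      dist (a m) (a n) := by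
  intro m n hmn
  obtain ⟨g, hg, hgi⟩ := hu (fun i κ => if i = n ∧ κ = 0 then 1 else 0) (fun i κ => by
    split_ifs <;> simp)
  have h1 : g (a n) = 1 := by
    have := hgi n 0 (hp n)
    simpa using this
  have h2 : g (a m) = 0 := by
    have := hgi m 0 (hp m)
    simpa [hmn] using this
  have hN0 : 0 < N := by linarith
  set X : ℝ := 2 * N * Real.exp (3 * N) with hX
  have hX1 : 1 ≤ X := by
    have : 1 ≤ Real.exp (3 * N) := Real.one_le_exp (by linarith)
    nlinarith
  have hX0 : 0 < X := by linarith
  have hr := rho_nonneg (a n)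
  rcases le_or_gt 1 (dist (a m) (a n)) with hd | hd
  · refine le_trans ?_ hd
    have h3 : 1 / X ≤ 1 := by rw [div_le_one hX0]; exact hX1
    have h4 : Real.exp (-(N * rho (a n))) ≤ 1 := Real.exp_le_one_iff.2 (by nlinarith)
    have h5 : 0 ≤ Real.exp (-(N * rho (a n))) := (Real.exp_pos _).le
    have h6 : 0 ≤ 1 / X := by positivity
    nlinarith
  · have hb : ∀ z ∈ ball (a n) 1, ‖g z‖ ≤ N * Real.exp (N * (rho (a n) + 3)) := by
      intro z hz
      refine (hg.2 z).trans ?_
      have : rho z ≤ rho (a n) + 3 := rho_le (by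
        rw [mem_ball, dist_eq_norm] at hz
        exact hz.le)
      gcongr
    have h3 := lip_of_bdd hg.1.differentiableOn hb (a m) (by rw [mem_ball]; exact hd)
    rw [h1, h2, dist_eq_norm] at h3
    simp only [zero_sub, norm_neg, norm_one, div_one] at h3
    have h4 : 2 * (N * Real.exp (N * (rho (a n) + 3))) = X * Real.exp (N * rho (a n)) := by
      rw [hX, mul_add, Real.exp_add]
      ring_nf
    rw [h4] at h3
    rw [Real.exp_neg, one_div, ← mul_inv, inv_le_iff_one_le_mul₀ (by positivity)]
    linarith

theorem phi_lt_top : ∫⁻ z : ℂ, ENNReal.ofReal (Real.exp (-(2 * rho z))) < ⊤ := by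
  have h1 : Integrable (fun z : ℂ => ((1 : ℝ) + ‖z‖ ^ 2) ^ (-(4:ℝ) / 2)) volume := by
    apply integrable_rpow_neg_one_add_norm_sq
    rw [Complex.finrank_real_complex]
    norm_num
  have h2 := h1.2
  rw [hasFiniteIntegral_iff_norm] at h2
  refine lt_of_le_of_lt (lintegral_mono fun z => ?_) h2
  apply ENNReal.ofReal_le_ofReal
  rw [Real.norm_of_nonneg (by positivity)]
  have h3 : (0:ℝ) < 1 + ‖z‖ ^ 2 := by positivity
  rw [Real.rpow_def_of_pos h3]
  apply Real.exp_le_exp.2
  unfold rho
  have := abs_nonneg z.im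
  linarith

theorem summable_exp {a : ℕ → ℂ} {c0 N : ℝ} (hc0 : 0 < c0) (hc1 : c0 ≤ 1) (hN : 0 ≤ N)
    (hsep : ∀ m n, m ≠ n → c0 * Real.exp (-(N * rho (a n))) ≤ dist (a m) (a n)) :
    Summable (fun n => Real.exp (-((2 * N + 2) * rho (a n)))) := by
  set s : ℕ → ℝ := fun n => c0 * Real.exp (-(N * rho (a n))) with hs
  have hs0 : ∀ n, 0 < s n := fun n => by positivity
  have hs1 : ∀ n, s n ≤ 1 := by
    intro n
    have h4 : Real.exp (-(N * rho (a n))) ≤ 1 :=
      Real.exp_le_one_iff.2 (by have := rho_nonneg (a n); nlinarith)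
    have h5 : 0 ≤ Real.exp (-(N * rho (a n))) := (Real.exp_pos _).le
    show c0 * Real.exp (-(N * rho (a n))) ≤ 1
    nlinarith
  set D : ℕ → Set ℂ := fun n => ball (a n) (s n / 2) with hD
  have hdis : Pairwise (Function.onFun Disjoint D) := by
    intro m n hmn
    apply ball_disjoint_ball
    have h1 := hsep m n hmn
    have h2 := hsep n m hmn.symm
    rw [dist_comm] at h2
    have e1 : s n = c0 * Real.exp (-(N * rho (a n))) := rfl
    have e2 : s m = c0 * Real.exp (-(N * rho (a m))) := rfl
    linarith
  have hlow : ∀ n, ENNReal.ofReal (Real.exp (-6) * c0 ^ 2 / 4 *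
      Real.exp (-((2 * N + 2) * rho (a n)))) ≤ ∫⁻ z in D n, ENNReal.ofReal (Real.exp (-(2 * rho z))) := by
    intro n
    have h1 : ∀ z ∈ D n, ENNReal.ofReal (Real.exp (-(2 * rho (a n)) - 6)) ≤
        ENNReal.ofReal (Real.exp (-(2 * rho z))) := by
      intro z hz
      apply ENNReal.ofReal_le_ofReal
      apply Real.exp_le_exp.2
      have : rho z ≤ rho (a n) + 3 := rho_le (by
        rw [hD] at hz
        simp only [mem_ball, dist_eq_norm] at hz
        have := hs1 n
        linarith)
      linarith
    have h2 : ∫⁻ _z in D n, ENNReal.ofReal (Real.exp (-(2 * rho (a n)) - 6)) ≤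
        ∫⁻ z in D n, ENNReal.ofReal (Real.exp (-(2 * rho z))) :=
      setLIntegral_mono' measurableSet_ball h1
    refine le_trans ?_ h2
    rw [setLIntegral_const, Complex.volume_ball]
    have h3 : (1 : ℝ≥0∞) ≤ (NNReal.pi : ℝ≥0∞) := by
      have : (1 : NNReal) ≤ NNReal.pi := by
        rw [← NNReal.coe_le_coe]
        push_cast
        have := Real.pi_gt_three
        simp only [NNReal.coe_real_pi]
        linarith
      exact_mod_cast this
    calc ENNReal.ofReal (Real.exp (-6) * c0 ^ 2 / 4 * Real.exp (-((2 * N + 2) * rho (a n))))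
        = ENNReal.ofReal (Real.exp (-(2 * rho (a n)) - 6)) * (ENNReal.ofReal (s n / 2) ^ 2 * 1) := by
          rw [mul_one, ← ENNReal.ofReal_pow (by have := hs0 n; positivity),
            ← ENNReal.ofReal_mul (Real.exp_pos _).le]
          congr 1
          show _ = Real.exp (-(2 * rho (a n)) - 6) * ((c0 * Real.exp (-(N * rho (a n)))) / 2) ^ 2
          have e1 : Real.exp (-((2 * N + 2) * rho (a n))) =
              Real.exp (-(2 * rho (a n))) * (Real.exp (-(N * rho (a n)))) ^ 2 := by
            rw [← Real.exp_nat_mul, ← Real.exp_add]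
            congr 1
            push_cast
            ring
          have e2 : Real.exp (-(2 * rho (a n)) - 6) = Real.exp (-(2 * rho (a n))) * Real.exp (-6) := by
            rw [← Real.exp_add]
            congr 1
          rw [e1, e2]
          ring
      _ ≤ _ := by gcongr
  have htot : ∑' n, ENNReal.ofReal (Real.exp (-6) * c0 ^ 2 / 4 *
      Real.exp (-((2 * N + 2) * rho (a n)))) ≠ ⊤ := by
    refine ne_top_of_le_ne_top phi_lt_top.ne ?_
    calc _ ≤ ∑' n, ∫⁻ z in D n, ENNReal.ofReal (Real.exp (-(2 * rho z))) :=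
          ENNReal.tsum_le_tsum hlow
      _ = ∫⁻ z in ⋃ n, D n, ENNReal.ofReal (Real.exp (-(2 * rho z))) :=
          (lintegral_iUnion (fun n => measurableSet_ball) hdis _).symm
      _ ≤ _ := setLIntegral_le_lintegral _ _
  have hsum := ENNReal.summable_toReal htot
  have hC : 0 < Real.exp (-6) * c0 ^ 2 / 4 := by positivity
  have : (fun n => (ENNReal.ofReal (Real.exp (-6) * c0 ^ 2 / 4 *
      Real.exp (-((2 * N + 2) * rho (a n))))).toReal) =
      fun n => Real.exp (-6) * c0 ^ 2 / 4 * Real.exp (-((2 * N + 2) * rho (a n))) := by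
    funext n
    rw [ENNReal.toReal_ofReal (by positivity)]
  rw [this] at hsum
  exact (summable_mul_left_iff hC.ne').1 hsum

/-- union bound: a choice avoiding all bad events, if event `m` happens for at most one of the
values of the `m`-th coordinate -/
theorem exists_choice (M : ℕ) (K : Fin M → ℕ) (Bad : Fin M → (∀ n, Fin (K n + 1)) → Prop)
    (hbad : ∀ m i u v, u ≠ v → ¬ (Bad m (Function.update i m u) ∧ Bad m (Function.update i m v)))
    (hsum : ∑ m, 1 / ((K m : ℝ) + 1) < 1) : ∃ i, ∀ m, ¬ Bad m i := by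
  classical
  by_contra hcon
  push Not at hcon
  set Ω : Finset (∀ n, Fin (K n + 1)) := Finset.univ with hΩ
  have hcard : ∀ m, (Ω.filter (Bad m)).card * (K m + 1) ≤ Ω.card := by
    intro m
    have h1 : ((Ω.filter (Bad m)) ×ˢ (Finset.univ : Finset (Fin (K m + 1)))).card ≤ Ω.card := by
      apply Finset.card_le_card_of_injOn (fun q => Function.update q.1 m q.2)
      · intro q _
        exact Finset.mem_coe.2 (Finset.mem_univ _)
      · rintro ⟨i, u⟩ hi ⟨j, v⟩ hj heq
        simp only [Finset.coe_product, Set.mem_prod, Finset.mem_coe, Finset.mem_filter] at hi hj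
        simp only at heq
        have huv : u = v := by
          have := congrFun heq m
          simpa using this
        have hoff : ∀ n, n ≠ m → i n = j n := by
          intro n hn
          have := congrFun heq n
          simpa [Function.update_of_ne hn] using this
        have hji : j = Function.update i m (j m) := by
          funext n
          by_cases hn : n = m
          · subst hn; simp
          · rw [Function.update_of_ne hn, hoff n hn]
        have hij : i m = j m := by
          by_contra hne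
          apply hbad m i (i m) (j m) hne
          rw [Function.update_eq_self, ← hji]
          exact ⟨hi.1.2, hj.1.2⟩
        have : i = j := by
          funext n
          by_cases hn : n = m
          · subst hn; exact hij
          · exact hoff n hn
        rw [this, huv]
    rw [Finset.card_product] at h1
    simpa using h1
  have hcov : Ω.card ≤ ∑ m, (Ω.filter (Bad m)).card := by
    have h1 : Ω ⊆ Finset.univ.biUnion (fun m => Ω.filter (Bad m)) := by
      intro i _
      obtain ⟨m, hm⟩ := hcon i
      rw [Finset.mem_biUnion]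
      exact ⟨m, Finset.mem_univ _, Finset.mem_filter.2 ⟨Finset.mem_univ _, hm⟩⟩
    exact (Finset.card_le_card h1).trans Finset.card_biUnion_le
  have hpos : (0:ℝ) < Ω.card := by
    have : 0 < Ω.card := Finset.card_pos.2 ⟨fun n => 0, Finset.mem_univ _⟩
    exact_mod_cast this
  have h2 : (Ω.card : ℝ) ≤ ∑ m, (Ω.card : ℝ) * (1 / ((K m : ℝ) + 1)) := by
    calc (Ω.card : ℝ) ≤ ((∑ m, (Ω.filter (Bad m)).card : ℕ) : ℝ) := by exact_mod_cast hcov
      _ = ∑ m, ((Ω.filter (Bad m)).card : ℝ) := by push_cast; rfl
      _ ≤ _ := by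
        apply Finset.sum_le_sum
        intro m _
        rw [mul_one_div, le_div_iff₀ (by positivity)]
        exact_mod_cast hcard m
  rw [← Finset.mul_sum] at h2
  nlinarith

end Pool.Agent.U529.UI
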