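import Pool.Agent.U529.UI.Mon

set_option autoImplicit false

/-!
# Uniform bounds in universal interpolation (Baire category)
-/

open Complex Set Filter Metric Topology
open scoped BoundedContinuousFunction

namespace Pool.Agent.U529.UI

/-- the weight `|Im z| + log (1 + |z|²)` -/
noncomputable def rho (z : ℂ) : ℝ := |z.im| + Real.log (1 + ‖z‖ ^ 2)

lemma rho_nonneg (z : ℂ) : 0 ≤ rho z := by
  unfold rho
  have : 0 ≤ Real.log (1 + ‖z‖ ^ 2) := Real.log_nonneg (by nlinarith [norm_nonneg z])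
  positivity

lemma rho_continuous : Continuous rho := by
  unfold rho
  refine (Complex.continuous_im.abs).add (Continuous.log (by fun_prop) (fun z => by positivity))

lemma rho_le {w z : ℂ} (h : ‖w - z‖ ≤ 1) : rho w ≤ rho z + 3 := by
  unfold rho
  have h1 : |w.im| ≤ |z.im| + 1 := by
    have h2 : |(w - z).im| ≤ 1 := (Complex.abs_im_le_norm _).trans h
    rw [Complex.sub_im] at h2
    have h3 : |w.im| - |z.im| ≤ |w.im - z.im| := abs_sub_abs_le_abs_sub _ _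
    linarith
  have h4 : ‖w‖ ≤ ‖z‖ + 1 := by
    have : ‖w‖ - ‖z‖ ≤ ‖w - z‖ := norm_sub_norm_le _ _
    linarith
  have h5 : 1 + ‖w‖ ^ 2 ≤ 3 * (1 + ‖z‖ ^ 2) := by
    have h6 : ‖w‖ ^ 2 ≤ (‖z‖ + 1) ^ 2 := by gcongr
    nlinarith [sq_nonneg (‖z‖ - 1), norm_nonneg z]
  have h7 : Real.log (1 + ‖w‖ ^ 2) ≤ Real.log 3 + Real.log (1 + ‖z‖ ^ 2) := by
    rw [← Real.log_mul (by norm_num) (by positivity)]
    exact Real.log_le_log (by positivity) h5
  have h8 : Real.log 3 ≤ 2 := by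
    have := Real.log_le_sub_one_of_pos (show (0:ℝ) < 3 by norm_num)
    linarith
  linarith

lemma norm_le_exp_rho (z : ℂ) : ‖z‖ ≤ Real.exp (rho z) := by
  have h1 : (1 + ‖z‖ ^ 2 : ℝ) = Real.exp (Real.log (1 + ‖z‖ ^ 2)) := (Real.exp_log (by positivity)).symm
  have h2 : Real.exp (Real.log (1 + ‖z‖ ^ 2)) ≤ Real.exp (rho z) := by
    apply Real.exp_le_exp.2
    unfold rho
    linarith [abs_nonneg z.im]
  have h3 : ‖z‖ ≤ 1 + ‖z‖ ^ 2 := by nlinarith [sq_nonneg (‖z‖ - 1), norm_nonneg z]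
  linarith

/-- `g` interpolates the data `lam` -/
def Interp (a : ℕ → ℂ) (p : ℕ → ℕ) (lam : ℕ → ℕ → ℂ) (g : ℂ → ℂ) : Prop :=
  ∀ n, ∀ κ < p n, iteratedDeriv κ g (a n) / (κ.factorial : ℂ) = lam n κ

/-- the algebra of the problem -/
def InE (f : ℂ → ℂ) : Prop :=
  Differentiable ℂ f ∧ ∃ A > (0:ℝ), ∃ B > (0:ℝ), ∀ z : ℂ, ‖f z‖ ≤ A * Real.exp (B * rho z)

/-- universal interpolation -/
def Universal (a : ℕ → ℂ) (p : ℕ → ℕ) : Prop :=
  ∀ lam : ℕ → ℕ → ℂ, (∃ A > (0:ℝ), ∃ B > (0:ℝ), ∀ n, ∀ κ < p n,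
        ‖lam n κ‖ ≤ A * Real.exp (B * rho (a n))) → ∃ g : ℂ → ℂ, InE g ∧ Interp a p lam g

/-- the bounded class -/
def Cls (N : ℝ) (g : ℂ → ℂ) : Prop :=
  Differentiable ℂ g ∧ ∀ z, ‖g z‖ ≤ N * Real.exp (N * rho z)

lemma cls_continuous (N : ℝ) : Continuous fun z : ℂ => N * Real.exp (N * rho z) := by
  have := rho_continuous
  fun_prop

theorem closed_set (a : ℕ → ℂ) (p : ℕ → ℕ) (N : ℝ) :
    IsClosed {q : (ℕ × ℕ) →ᵇ ℂ | ∃ g, Cls N g ∧ Interp a p (fun n κ => q (n, κ)) g} := by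
  apply IsSeqClosed.isClosed
  intro q q0 hq hlim
  choose g hg using hq
  obtain ⟨G, hGd, hGb, hG⟩ := montel (cls_continuous N) g (fun k => (hg k).1.1) (fun k => (hg k).1.2)
    (hyperfilter ℕ)
  refine ⟨G, ⟨hGd, hGb⟩, fun n κ hκ => ?_⟩
  have h1 : Tendsto (fun k => iteratedDeriv κ (g k) (a n) / (κ.factorial : ℂ)) (hyperfilter ℕ : Filter ℕ)
      (𝓝 (iteratedDeriv κ G (a n) / (κ.factorial : ℂ))) := (hG κ (a n)).div_const _
  have h2 : Tendsto (fun k => q k (n, κ)) atTop (𝓝 (q0 (n, κ))) :=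
    ((BoundedContinuousFunction.tendsto_iff_tendstoUniformly.1 hlim).tendsto_at (n, κ))
  have h3 : Tendsto (fun k => q k (n, κ)) (hyperfilter ℕ : Filter ℕ) (𝓝 (q0 (n, κ))) :=
    h2.mono_left Nat.hyperfilter_le_atTop
  refine tendsto_nhds_unique h1 (h3.congr fun k => ?_)
  exact ((hg k).2 n κ hκ).symm

theorem uniform {a : ℕ → ℂ} {p : ℕ → ℕ} (h : Universal a p) :
    ∃ N : ℝ, 1 ≤ N ∧ ∀ lam : ℕ → ℕ → ℂ, (∀ n κ, ‖lam n κ‖ ≤ 1) →
      ∃ g, Cls N g ∧ Interp a p lam g := by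
  have hcl : ∀ N : ℕ, IsClosed
      {q : (ℕ × ℕ) →ᵇ ℂ | ∃ g, Cls (N : ℝ) g ∧ Interp a p (fun n κ => q (n, κ)) g} :=
    fun N => closed_set a p N
  have hun : ⋃ N : ℕ, {q : (ℕ × ℕ) →ᵇ ℂ | ∃ g, Cls (N : ℝ) g ∧ Interp a p (fun n κ => q (n, κ)) g}
      = univ := by
    rw [eq_univ_iff_forall]
    intro q
    obtain ⟨g, ⟨hgd, A, hA, B, hB, hg⟩, hgi⟩ := h (fun n κ => q (n, κ)) ⟨‖q‖ + 1, by positivity, 1, one_pos,
      fun n κ _ => by
        have h1 : ‖q (n, κ)‖ ≤ ‖q‖ := q.norm_coe_le_norm _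
        have h2 : 1 ≤ Real.exp (1 * rho (a n)) := Real.one_le_exp (by linarith [rho_nonneg (a n)])
        have h3 : 0 ≤ ‖q‖ := norm_nonneg _
        nlinarith⟩
    obtain ⟨N, hN⟩ := exists_nat_ge (max A B)
    rw [mem_iUnion]
    refine ⟨N, g, ⟨hgd, fun z => (hg z).trans ?_⟩, hgi⟩
    have h1 := le_max_left A B
    have h2 := le_max_right A B
    have h3 := rho_nonneg z
    gcongr
    · linarith
    · linarith
  obtain ⟨N, q0, hq0⟩ := nonempty_interior_of_iUnion_of_closed hcl hun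
  rw [mem_interior_iff_mem_nhds, Metric.mem_nhds_iff] at hq0
  obtain ⟨r, hr, hball⟩ := hq0
  have hN0 : (0:ℝ) ≤ N := Nat.cast_nonneg N
  refine ⟨max 1 (max N ((2 / r) * (2 * N))), le_max_left _ _, fun lam hlam => ?_⟩
  set L : (ℕ × ℕ) →ᵇ ℂ := BoundedContinuousFunction.ofNormedAddCommGroup
    (fun q : ℕ × ℕ => lam q.1 q.2) continuous_of_discreteTopology 1 (fun q => hlam _ _) with hL
  have hLn : ‖L‖ ≤ 1 := by
    exact BoundedContinuousFunction.norm_ofNormedAddCommGroup_le _ zero_le_one _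
  obtain ⟨g0, hg0, hg0i⟩ := hball (mem_ball_self hr)
  have hmem : q0 + ((r / 2 : ℝ) : ℂ) • L ∈ ball q0 r := by
    rw [mem_ball, dist_eq_norm, add_sub_cancel_left, norm_smul, Complex.norm_real, Real.norm_eq_abs,
      abs_of_pos (by positivity)]
    nlinarith [norm_nonneg L]
  obtain ⟨g1, hg1, hg1i⟩ := hball hmem
  have hr0 : ((r : ℝ) : ℂ) ≠ 0 := by exact_mod_cast hr.ne'
  refine ⟨fun z => ((2 / r : ℝ) : ℂ) * (g1 z - g0 z), ⟨?_, fun z => ?_⟩, fun n κ hκ => ?_⟩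
  · have h0 := hg0.1
    have h1 := hg1.1
    fun_prop
  · rw [norm_mul, Complex.norm_real, Real.norm_eq_abs, abs_of_pos (by positivity)]
    have h1 := hg1.2 z
    have h0 := hg0.2 z
    have h2 := norm_sub_le (g1 z) (g0 z)
    have h3 := rho_nonneg z
    set X := max 1 (max (N:ℝ) ((2 / r) * (2 * N))) with hX
    have hX1 : (N:ℝ) ≤ X := (le_max_left _ _).trans (le_max_right _ _)
    have hX2 : (2 / r) * (2 * (N:ℝ)) ≤ X := (le_max_right _ _).trans (le_max_right _ _)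
    have h2r : 0 < 2 / r := by positivity
    calc 2 / r * ‖g1 z - g0 z‖ ≤ 2 / r * (2 * N * Real.exp (N * rho z)) := by
          gcongr
          linarith
      _ = ((2 / r) * (2 * N)) * Real.exp (N * rho z) := by ring
      _ ≤ X * Real.exp (X * rho z) := by
          gcongr
  · have hc1 : ContDiffAt ℂ κ g1 (a n) := (hg1.1.contDiff).contDiffAt
    have hc0 : ContDiffAt ℂ κ g0 (a n) := (hg0.1.contDiff).contDiffAt
    have e : iteratedDeriv κ (fun z => ((2 / r : ℝ) : ℂ) * (g1 z - g0 z)) (a n) =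
        ((2 / r : ℝ) : ℂ) * (iteratedDeriv κ g1 (a n) - iteratedDeriv κ g0 (a n)) := by
      rw [← iteratedDeriv_fun_sub hc1 hc0]
      exact iteratedDeriv_const_mul _ (hc1.sub hc0)
    rw [e]
    have h1 := hg1i n κ hκ
    have h0 := hg0i n κ hκ
    simp only [BoundedContinuousFunction.coe_add, Pi.add_apply, BoundedContinuousFunction.coe_smul] at h1
    rw [mul_div_assoc, sub_div, h1]
    rw [h0]
    have hLv : L (n, κ) = lam n κ := rfl
    rw [hLv]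
    push_cast
    simp only [smul_eq_mul]
    field_simp
    ring

end Pool.Agent.U529.UI
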